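import Pool.Agent.Helper37.DG.Stmts

set_option autoImplicit false

/-!
# The large sieve inequality for Farey fractions (module LSI of the project DG)
-/

namespace Pool.Agent.Helper37.DG

open Finset
open scoped Classical ComplexConjugate

/-- `exp (2 pi i t)` -/
noncomputable def lsi_e (t : ℝ) : ℂ := Complex.exp (2 * Real.pi * Complex.I * (t : ℂ))

theorem lsi_e_add (s t : ℝ) : lsi_e (s + t) = lsi_e s * lsi_e t := by
  unfold lsi_e
  rw [← Complex.exp_add]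
  congr 1
  push_cast
  ring

theorem lsi_e_int (n : ℤ) : lsi_e (n : ℝ) = 1 := by
  unfold lsi_e
  rw [Complex.exp_eq_one_iff]
  exact ⟨n, by push_cast; ring⟩

theorem lsi_e_norm (t : ℝ) : ‖lsi_e t‖ = 1 := by
  have h : lsi_e t = Complex.exp (((2 * Real.pi * t : ℝ) : ℂ) * Complex.I) := by
    unfold lsi_e
    congr 1
    push_cast
    ring
  rw [h, Complex.norm_exp_ofReal_mul_I]

theorem lsi_e_conj (t : ℝ) : conj (lsi_e t) = lsi_e (-t) := by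
  unfold lsi_e
  rw [← Complex.exp_conj]
  congr 1
  simp only [map_mul, Complex.conj_ofReal, Complex.conj_I, map_ofNat]
  push_cast
  ring

theorem lsi_e_pow (t : ℝ) (n : ℕ) : lsi_e (t * n) = lsi_e t ^ n := by
  unfold lsi_e
  rw [← Complex.exp_nat_mul]
  congr 1
  push_cast
  ring

/-- the Dirichlet kernel -/
noncomputable def lsi_D (M : ℕ) (t : ℝ) : ℂ := ∑ u ∈ range M, lsi_e (t * u)

theorem lsi_D_triv (M : ℕ) (t : ℝ) : ‖lsi_D M t‖ ≤ M := by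
  unfold lsi_D
  refine (norm_sum_le _ _).trans ?_
  simp [lsi_e_norm]

theorem lsi_D_conj (M : ℕ) (t : ℝ) : conj (lsi_D M t) = lsi_D M (-t) := by
  unfold lsi_D
  rw [map_sum]
  refine Finset.sum_congr rfl fun u _ => ?_
  rw [lsi_e_conj]
  congr 1
  ring

theorem lsi_D_per (M : ℕ) (t : ℝ) (n : ℤ) : lsi_D M (t + n) = lsi_D M t := by
  unfold lsi_D
  refine Finset.sum_congr rfl fun u _ => ?_
  have h : (t + n) * (u : ℝ) = t * u + ((n * (u : ℤ) : ℤ) : ℝ) := by push_cast; ring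
  rw [h, lsi_e_add, lsi_e_int, mul_one]

theorem lsi_e_sub_one (y : ℝ) (h0 : 0 ≤ y) (h1 : y ≤ 1) :
    4 * min y (1 - y) ≤ ‖lsi_e y - 1‖ := by
  have h : lsi_e y = Complex.exp (Complex.I * ((2 * Real.pi * y : ℝ) : ℂ)) := by
    unfold lsi_e
    congr 1
    push_cast
    ring
  rw [h, Complex.norm_exp_I_mul_ofReal_sub_one]
  have e : 2 * Real.pi * y / 2 = Real.pi * y := by ring
  rw [e, Real.norm_eq_abs, abs_mul, abs_of_pos (by norm_num : (0 : ℝ) < 2)]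
  have hpi := Real.pi_pos
  have key : 2 * min y (1 - y) ≤ Real.sin (Real.pi * y) := by
    rcases le_total y (1 - y) with hle | hle
    · rw [min_eq_left hle]
      have h2 := Real.mul_le_sin (x := Real.pi * y) (by positivity) (by nlinarith)
      have h3 : 2 / Real.pi * (Real.pi * y) = 2 * y := by field_simp
      rw [h3] at h2
      exact h2
    · rw [min_eq_right hle]
      have h2 := Real.mul_le_sin (x := Real.pi * (1 - y)) (by
        apply mul_nonneg hpi.le; linarith) (by nlinarith)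
      have h3 : 2 / Real.pi * (Real.pi * (1 - y)) = 2 * (1 - y) := by field_simp
      have h4 : Real.sin (Real.pi * (1 - y)) = Real.sin (Real.pi * y) := by
        have : Real.pi * (1 - y) = Real.pi - Real.pi * y := by ring
        rw [this, Real.sin_pi_sub]
      rw [h3, h4] at h2
      exact h2
  have h5 := le_abs_self (Real.sin (Real.pi * y))
  linarith

theorem lsi_D_bound (M : ℕ) (y : ℝ) (h0 : 0 ≤ y) (h1 : y ≤ 1) :
    ‖lsi_D M y‖ * (2 * min y (1 - y)) ≤ 1 := by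
  have hgeo : lsi_D M y * (lsi_e y - 1) = lsi_e y ^ M - 1 := by
    unfold lsi_D
    have : ∀ u ∈ range M, lsi_e (y * u) = lsi_e y ^ u := fun u _ => lsi_e_pow y u
    rw [Finset.sum_congr rfl this]
    exact geom_sum_mul (lsi_e y) M
  have hn : ‖lsi_D M y‖ * ‖lsi_e y - 1‖ ≤ 2 := by
    rw [← norm_mul, hgeo]
    refine (norm_sub_le _ _).trans ?_
    rw [norm_pow, lsi_e_norm, one_pow, norm_one]
    norm_num
  have h2 := lsi_e_sub_one y h0 h1
  have h3 : ‖lsi_D M y‖ * (4 * min y (1 - y)) ≤ 2 :=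
    (mul_le_mul_of_nonneg_left h2 (norm_nonneg _)).trans hn
  linarith

/-- the bound in the cell `j` -/
noncomputable def lsi_c (L Q : ℕ) (j : ℕ) : ℝ :=
  if j = 0 then 4 * (L : ℝ) ^ 2 else (Q : ℝ) ^ 4 / 4 * (1 / (j : ℝ) ^ 2)

theorem lsi_c_nn (L Q j : ℕ) : 0 ≤ lsi_c L Q j := by
  unfold lsi_c
  split_ifs <;> positivity

theorem lsi_c_bound (L Q j : ℕ) (hQ : 1 ≤ Q) (X m : ℝ) (hX : 0 ≤ X) (hXL : X ≤ 2 * L)
    (hXm : X * (2 * m) ≤ 1) (hm : (j : ℝ) ≤ m * (Q : ℝ) ^ 2) : X ^ 2 ≤ lsi_c L Q j := by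
  have hQ0 : (0 : ℝ) < Q := by exact_mod_cast hQ
  unfold lsi_c
  split_ifs with hj
  · nlinarith
  · have hj0 : (0 : ℝ) < j := by
      have : 0 < j := Nat.pos_of_ne_zero hj
      exact_mod_cast this
    have h1 : X * (2 * j) ≤ (Q : ℝ) ^ 2 := by
      have a1 : X * (2 * j) ≤ X * (2 * (m * (Q : ℝ) ^ 2)) :=
        mul_le_mul_of_nonneg_left (by linarith) hX
      have a2 : X * (2 * (m * (Q : ℝ) ^ 2)) = X * (2 * m) * (Q : ℝ) ^ 2 := by ring
      have a3 : X * (2 * m) * (Q : ℝ) ^ 2 ≤ 1 * (Q : ℝ) ^ 2 :=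
        mul_le_mul_of_nonneg_right hXm (by positivity)
      linarith
    have h2 : (X * (2 * j)) ^ 2 ≤ ((Q : ℝ) ^ 2) ^ 2 :=
      pow_le_pow_left₀ (by positivity) h1 2
    have h3 : (Q : ℝ) ^ 4 / 4 * (1 / (j : ℝ) ^ 2) = (Q : ℝ) ^ 4 / (4 * (j : ℝ) ^ 2) := by
      field_simp
    rw [h3, le_div_iff₀ (by positivity)]
    nlinarith

theorem lsi_inv_sq1 (n : ℕ) :
    ∑ j ∈ range (n + 1), 1 / ((j : ℝ) + 1) ^ 2 ≤ 2 - 1 / ((n : ℝ) + 1) := by
  induction n with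
  | zero => norm_num
  | succ n ih =>
    rw [Finset.sum_range_succ]
    have h2 : (0 : ℝ) < (n : ℝ) + 1 := by positivity
    have h1 : 1 / ((n : ℝ) + 1 + 1) ^ 2 ≤ 1 / ((n : ℝ) + 1) - 1 / ((n : ℝ) + 1 + 1) := by
      have e : 1 / ((n : ℝ) + 1) - 1 / ((n : ℝ) + 1 + 1)
          = 1 / (((n : ℝ) + 1) * ((n : ℝ) + 1 + 1)) := by
        field_simp
        ring
      rw [e]
      apply one_div_le_one_div_of_le (by positivity)
      nlinarith
    push_cast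
    linarith

theorem lsi_inv_sq (n : ℕ) : ∑ j ∈ range n, 1 / ((j : ℝ) + 1) ^ 2 ≤ 2 := by
  rcases n with _ | n
  · simp
  · refine (lsi_inv_sq1 n).trans ?_
    have : (0 : ℝ) < 1 / ((n : ℝ) + 1) := by positivity
    linarith

theorem lsi_c_sum (L Q n : ℕ) :
    ∑ j ∈ range n, lsi_c L Q j ≤ 4 * (L : ℝ) ^ 2 + (Q : ℝ) ^ 4 / 2 := by
  rcases n with _ | n
  · simp
    positivity
  · rw [Finset.sum_range_succ']
    have h0 : lsi_c L Q 0 = 4 * (L : ℝ) ^ 2 := by simp [lsi_c]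
    have h1 : ∀ j ∈ range n, lsi_c L Q (j + 1)
        = (Q : ℝ) ^ 4 / 4 * (1 / ((j : ℝ) + 1) ^ 2) := by
      intro j _
      simp [lsi_c]
    rw [h0, Finset.sum_congr rfl h1, ← Finset.mul_sum]
    have h2 := lsi_inv_sq n
    have h3 : (Q : ℝ) ^ 4 / 4 * ∑ j ∈ range n, 1 / ((j : ℝ) + 1) ^ 2
        ≤ (Q : ℝ) ^ 4 / 4 * 2 := mul_le_mul_of_nonneg_left h2 (by positivity)
    linarith

/-- weights -/
theorem lsi_weight (L N : ℕ) (hNL : N ≤ L) (F : ℤ → ℝ) (hF : ∀ x, 0 ≤ F x) :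
    (L : ℝ) * ∑ x ∈ range N, F (x : ℤ)
      ≤ ∑ v ∈ range (2 * L), ∑ u ∈ range (2 * L), F ((u : ℤ) - (v : ℤ)) := by
  have h1 : ∀ v ∈ range L, ∑ x ∈ range N, F (x : ℤ)
      ≤ ∑ u ∈ range (2 * L), F ((u : ℤ) - (v : ℤ)) := by
    intro v hv
    rw [Finset.mem_range] at hv
    have e : ∑ x ∈ range N, F (x : ℤ) = ∑ u ∈ Ico v (v + N), F ((u : ℤ) - (v : ℤ)) := by
      rw [Finset.sum_Ico_eq_sum_range]
      have e1 : v + N - v = N := by omega
      rw [e1]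
      refine Finset.sum_congr rfl fun x _ => ?_
      congr 1
      push_cast
      ring
    rw [e]
    apply Finset.sum_le_sum_of_subset_of_nonneg
    · intro u hu
      rw [Finset.mem_Ico] at hu
      rw [Finset.mem_range]
      omega
    · intro u _ _
      exact hF _
  have h2 : (L : ℝ) * ∑ x ∈ range N, F (x : ℤ)
      = ∑ _v ∈ range L, ∑ x ∈ range N, F (x : ℤ) := by
    rw [Finset.sum_const, Finset.card_range, nsmul_eq_mul]
  rw [h2]
  refine (Finset.sum_le_sum h1).trans ?_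
  apply Finset.sum_le_sum_of_subset_of_nonneg
  · intro v hv
    rw [Finset.mem_range] at hv ⊢
    omega
  · intro v _ _
    exact Finset.sum_nonneg fun u _ => hF _

/-- expansion of the square -/
theorem lsi_expand {ι : Type} (J : Finset ι) (b : ι → ℂ) (θ : ι → ℝ) (M : ℕ) :
    ∑ v ∈ range M, ∑ u ∈ range M,
      ‖∑ k ∈ J, b k * lsi_e (θ k * (((u : ℤ) - (v : ℤ) : ℤ) : ℝ))‖ ^ 2
      ≤ ∑ k ∈ J, ∑ l ∈ J, ‖b k‖ * ‖b l‖ * ‖lsi_D M (θ k - θ l)‖ ^ 2 := by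
  have key : (((∑ v ∈ range M, ∑ u ∈ range M,
      ‖∑ k ∈ J, b k * lsi_e (θ k * (((u : ℤ) - (v : ℤ) : ℤ) : ℝ))‖ ^ 2 : ℝ)) : ℂ)
      = ∑ k ∈ J, ∑ l ∈ J, b k * conj (b l) *
        (lsi_D M (θ k - θ l) * conj (lsi_D M (θ k - θ l))) := by
    push_cast
    have h1 : ∀ v ∈ range M, ∀ u ∈ range M,
        ((‖∑ k ∈ J, b k * lsi_e (θ k * ((u : ℝ) - (v : ℝ)))‖ : ℂ)) ^ 2
        = ∑ k ∈ J, ∑ l ∈ J, b k * conj (b l) *
          (lsi_e ((θ k - θ l) * u) * conj (lsi_e ((θ k - θ l) * v))) := by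
      intro v _ u _
      rw [← Complex.mul_conj', map_sum, Finset.sum_mul_sum]
      refine Finset.sum_congr rfl fun k _ => Finset.sum_congr rfl fun l _ => ?_
      rw [map_mul, lsi_e_conj, lsi_e_conj]
      have e1 : θ k * ((u : ℝ) - (v : ℝ)) = (θ k - θ l) * u + (-((θ k - θ l) * v))
          + (θ l * ((u : ℝ) - v)) := by ring
      have e2 : lsi_e (θ k * ((u : ℝ) - (v : ℝ))) * lsi_e (-(θ l * ((u : ℝ) - (v : ℝ))))
          = lsi_e ((θ k - θ l) * u) * lsi_e (-((θ k - θ l) * v)) := by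
        rw [← lsi_e_add, ← lsi_e_add]
        congr 1
        ring
      calc b k * lsi_e (θ k * ((u : ℝ) - (v : ℝ)))
            * (conj (b l) * lsi_e (-(θ l * ((u : ℝ) - (v : ℝ)))))
          = b k * conj (b l) * (lsi_e (θ k * ((u : ℝ) - (v : ℝ)))
            * lsi_e (-(θ l * ((u : ℝ) - (v : ℝ))))) := by ring
        _ = _ := by rw [e2]
    rw [Finset.sum_congr rfl fun v hv => Finset.sum_congr rfl fun u hu => h1 v hv u hu]
    have h2 : ∀ k ∈ J, ∀ l ∈ J, b k * conj (b l) *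
        (lsi_D M (θ k - θ l) * conj (lsi_D M (θ k - θ l)))
        = ∑ v ∈ range M, ∑ u ∈ range M, b k * conj (b l) *
          (lsi_e ((θ k - θ l) * u) * conj (lsi_e ((θ k - θ l) * v))) := by
      intro k _ l _
      unfold lsi_D
      rw [map_sum, Finset.sum_mul_sum, Finset.mul_sum, Finset.sum_comm]
      refine Finset.sum_congr rfl fun v _ => ?_
      rw [Finset.mul_sum]
    rw [Finset.sum_congr rfl fun k hk => Finset.sum_congr rfl fun l hl => h2 k hk l hl]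
    rw [Finset.sum_congr rfl fun v _ => Finset.sum_comm]
    rw [Finset.sum_comm]
    refine Finset.sum_congr rfl fun k _ => ?_
    rw [Finset.sum_congr rfl fun v _ => Finset.sum_comm]
    rw [Finset.sum_comm]
  have h3 : ∑ v ∈ range M, ∑ u ∈ range M,
      ‖∑ k ∈ J, b k * lsi_e (θ k * (((u : ℤ) - (v : ℤ) : ℤ) : ℝ))‖ ^ 2
      = ‖(((∑ v ∈ range M, ∑ u ∈ range M,
      ‖∑ k ∈ J, b k * lsi_e (θ k * (((u : ℤ) - (v : ℤ) : ℤ) : ℝ))‖ ^ 2 : ℝ)) : ℂ)‖ := by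
    rw [Complex.norm_real, Real.norm_eq_abs, abs_of_nonneg]
    exact Finset.sum_nonneg fun v _ => Finset.sum_nonneg fun u _ => by positivity
  rw [h3, key]
  refine (norm_sum_le _ _).trans (Finset.sum_le_sum fun k _ => ?_)
  refine (norm_sum_le _ _).trans (Finset.sum_le_sum fun l _ => ?_)
  rw [norm_mul, norm_mul, norm_mul, RCLike.norm_conj, RCLike.norm_conj]
  rw [sq]

theorem lsi_schur {ι : Type} (J : Finset ι) (b : ι → ℝ) (g : ι → ι → ℝ) (B : ℝ)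
    (hg : ∀ k l, 0 ≤ g k l) (hs : ∀ k l, g k l = g l k) (hB : ∀ k ∈ J, ∑ l ∈ J, g k l ≤ B) :
    ∑ k ∈ J, ∑ l ∈ J, b k * b l * g k l ≤ B * ∑ k ∈ J, b k ^ 2 := by
  have h1 : ∑ k ∈ J, ∑ l ∈ J, b k * b l * g k l
      ≤ ∑ k ∈ J, ∑ l ∈ J, (b k ^ 2 * g k l / 2 + b l ^ 2 * g l k / 2) := by
    refine Finset.sum_le_sum fun k _ => Finset.sum_le_sum fun l _ => ?_
    rw [← hs k l]
    have h2 : b k * b l ≤ (b k ^ 2 + b l ^ 2) / 2 := by nlinarith [sq_nonneg (b k - b l)]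
    have h3 := mul_le_mul_of_nonneg_right h2 (hg k l)
    linarith
  have h4 : ∑ k ∈ J, ∑ l ∈ J, (b k ^ 2 * g k l / 2 + b l ^ 2 * g l k / 2)
      = ∑ k ∈ J, b k ^ 2 * ∑ l ∈ J, g k l := by
    have e1 : ∑ k ∈ J, ∑ l ∈ J, (b k ^ 2 * g k l / 2 + b l ^ 2 * g l k / 2)
        = ∑ k ∈ J, ∑ l ∈ J, b k ^ 2 * g k l / 2 + ∑ k ∈ J, ∑ l ∈ J, b l ^ 2 * g l k / 2 := by
      rw [← Finset.sum_add_distrib]
      refine Finset.sum_congr rfl fun k _ => ?_
      rw [← Finset.sum_add_distrib]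
    have e2 : ∑ k ∈ J, ∑ l ∈ J, b l ^ 2 * g l k / 2 = ∑ k ∈ J, ∑ l ∈ J, b k ^ 2 * g k l / 2 :=
      Finset.sum_comm
    rw [e1, e2, ← Finset.sum_add_distrib]
    refine Finset.sum_congr rfl fun k _ => ?_
    rw [← Finset.sum_add_distrib, Finset.mul_sum]
    refine Finset.sum_congr rfl fun l _ => ?_
    ring
  rw [h4] at h1
  refine h1.trans ?_
  rw [Finset.mul_sum]
  refine Finset.sum_le_sum fun k hk => ?_
  have h5 := mul_le_mul_of_nonneg_left (hB k hk) (sq_nonneg (b k))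
  linarith

/-- separated points -/
theorem lsi_sep {ι : Type} (J : Finset ι) (θ : ι → ℝ) (L Q : ℕ) (hQ : 1 ≤ Q)
    (hsep : ∀ k ∈ J, ∀ l ∈ J, k ≠ l → ∀ n : ℤ, 1 / (Q : ℝ) ^ 2 ≤ |θ k - θ l - n|) (k0 : ι) :
    ∑ l ∈ J, ‖lsi_D (2 * L) (θ k0 - θ l)‖ ^ 2 ≤ 8 * (L : ℝ) ^ 2 + (Q : ℝ) ^ 4 := by
  have hQ0 : (0 : ℝ) < Q := by exact_mod_cast hQ
  have hQ2 : (0 : ℝ) < (Q : ℝ) ^ 2 := by positivity
  let y : ι → ℝ := fun l => Int.fract (θ k0 - θ l)
  have y0 : ∀ l, 0 ≤ y l := fun l => Int.fract_nonneg _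
  have y1 : ∀ l, y l < 1 := fun l => Int.fract_lt_one _
  let c : ι → ℕ := fun l => ⌊y l * (Q : ℝ) ^ 2⌋₊
  have c1 : ∀ l, (c l : ℝ) ≤ y l * (Q : ℝ) ^ 2 := fun l =>
    Nat.floor_le (mul_nonneg (y0 l) hQ2.le)
  have c2 : ∀ l, y l * (Q : ℝ) ^ 2 < c l + 1 := fun l => Nat.lt_floor_add_one _
  have c3 : ∀ l, c l < Q ^ 2 := by
    intro l
    have h1 : (c l : ℝ) < (Q : ℝ) ^ 2 := by
      have h2 : y l * (Q : ℝ) ^ 2 < 1 * (Q : ℝ) ^ 2 := mul_lt_mul_of_pos_right (y1 l) hQ2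
      linarith [c1 l]
    exact_mod_cast h1
  have hinj : Set.InjOn c J := by
    intro k hk l hl hkl
    by_contra hne
    have h1 : |y k - y l| < 1 / (Q : ℝ) ^ 2 := by
      rw [lt_div_iff₀ hQ2]
      have e0 : |y k - y l| * (Q : ℝ) ^ 2 = |(y k - y l) * (Q : ℝ) ^ 2| := by
        rw [abs_mul, abs_of_pos hQ2]
      rw [e0, abs_lt]
      have a1 := c1 k
      have a2 := c2 k
      have a3 := c1 l
      have a4 := c2 l
      rw [hkl] at a1 a2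
      constructor <;> nlinarith
    have h2 : y k - y l = -(θ k - θ l - ((⌊θ k0 - θ l⌋ - ⌊θ k0 - θ k⌋ : ℤ) : ℝ)) := by
      simp only [y, Int.fract]
      push_cast
      ring
    rw [h2, abs_neg] at h1
    have h3 := hsep k hk l hl hne (⌊θ k0 - θ l⌋ - ⌊θ k0 - θ k⌋)
    linarith
  have hterm : ∀ l ∈ J, ‖lsi_D (2 * L) (θ k0 - θ l)‖ ^ 2
      ≤ lsi_c L Q (c l) + lsi_c L Q (Q ^ 2 - 1 - c l) := by
    intro l _
    have e : θ k0 - θ l = y l + ((⌊θ k0 - θ l⌋ : ℤ) : ℝ) := by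
      simp only [y, Int.fract]
      ring
    rw [e, lsi_D_per]
    have hX0 : 0 ≤ ‖lsi_D (2 * L) (y l)‖ := norm_nonneg _
    have hXL : ‖lsi_D (2 * L) (y l)‖ ≤ 2 * L := by
      have := lsi_D_triv (2 * L) (y l)
      push_cast at this
      exact this
    have hb := lsi_D_bound (2 * L) (y l) (y0 l) (y1 l).le
    rcases le_total (y l) (1 - y l) with hle | hle
    · rw [min_eq_left hle] at hb
      have h1 := lsi_c_bound L Q (c l) hQ _ (y l) hX0 hXL hb (c1 l)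
      have h2 := lsi_c_nn L Q (Q ^ 2 - 1 - c l)
      linarith
    · rw [min_eq_right hle] at hb
      have hj : (((Q ^ 2 - 1 - c l : ℕ)) : ℝ) ≤ (1 - y l) * (Q : ℝ) ^ 2 := by
        have h3 := c3 l
        have h4 : Q ^ 2 - 1 - c l + (c l + 1) = Q ^ 2 := by omega
        have h5 : (((Q ^ 2 - 1 - c l : ℕ)) : ℝ) + ((c l : ℝ) + 1) = (Q : ℝ) ^ 2 := by
          exact_mod_cast h4
        have h6 := c2 l
        nlinarith
      have h1 := lsi_c_bound L Q (Q ^ 2 - 1 - c l) hQ _ (1 - y l) hX0 hXL hb hj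
      have h2 := lsi_c_nn L Q (c l)
      linarith
  have hsum : ∀ f : ℕ → ℝ, (∀ j, 0 ≤ f j) → ∑ l ∈ J, f (c l) ≤ ∑ j ∈ range (Q ^ 2), f j := by
    intro f hf
    rw [← Finset.sum_image (f := f) hinj]
    apply Finset.sum_le_sum_of_subset_of_nonneg
    · intro j hj
      rw [Finset.mem_image] at hj
      obtain ⟨l, _, rfl⟩ := hj
      exact Finset.mem_range.mpr (c3 l)
    · intro j _ _
      exact hf j
  refine (Finset.sum_le_sum hterm).trans ?_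
  rw [Finset.sum_add_distrib]
  have s1 := (hsum (lsi_c L Q) (lsi_c_nn L Q)).trans (lsi_c_sum L Q (Q ^ 2))
  have s2 := hsum (fun j => lsi_c L Q (Q ^ 2 - 1 - j)) (fun j => lsi_c_nn L Q _)
  rw [Finset.sum_range_reflect (lsi_c L Q) (Q ^ 2)] at s2
  have s3 := s2.trans (lsi_c_sum L Q (Q ^ 2))
  linarith

/-- the dual large sieve inequality -/
theorem lsi_dual {ι : Type} (J : Finset ι) (b : ι → ℂ) (θ : ι → ℝ) (N Q : ℕ) (hQ : 1 ≤ Q)
    (hsep : ∀ k ∈ J, ∀ l ∈ J, k ≠ l → ∀ n : ℤ, 1 / (Q : ℝ) ^ 2 ≤ |θ k - θ l - n|) :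
    ∑ x ∈ range N, ‖∑ k ∈ J, b k * lsi_e (θ k * (((x : ℤ)) : ℝ))‖ ^ 2
      ≤ 9 * ((N : ℝ) + (Q : ℝ) ^ 2) * ∑ k ∈ J, ‖b k‖ ^ 2 := by
  obtain ⟨L, hL⟩ : ∃ L : ℕ, L = N + Q ^ 2 := ⟨_, rfl⟩
  have hLr : (L : ℝ) = (N : ℝ) + (Q : ℝ) ^ 2 := by rw [hL]; push_cast; ring
  have hQ0 : (0 : ℝ) < Q := by exact_mod_cast hQ
  have hL0 : (0 : ℝ) < L := by rw [hLr]; positivity
  have h1 := lsi_weight L N (by omega)
    (fun x => ‖∑ k ∈ J, b k * lsi_e (θ k * ((x : ℤ) : ℝ))‖ ^ 2) (fun x => by positivity)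
  have h2 := lsi_expand J b θ (2 * L)
  have h3 := lsi_schur J (fun k => ‖b k‖) (fun k l => ‖lsi_D (2 * L) (θ k - θ l)‖ ^ 2)
    (8 * (L : ℝ) ^ 2 + (Q : ℝ) ^ 4) (fun k l => by positivity)
    (fun k l => by
      have e : θ l - θ k = -(θ k - θ l) := by ring
      show ‖lsi_D (2 * L) (θ k - θ l)‖ ^ 2 = ‖lsi_D (2 * L) (θ l - θ k)‖ ^ 2
      rw [e, ← lsi_D_conj, RCLike.norm_conj])
    (fun k _ => lsi_sep J θ L Q hQ hsep k)
  have h4 : (L : ℝ) * ∑ x ∈ range N, ‖∑ k ∈ J, b k * lsi_e (θ k * (((x : ℤ)) : ℝ))‖ ^ 2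
      ≤ (8 * (L : ℝ) ^ 2 + (Q : ℝ) ^ 4) * ∑ k ∈ J, ‖b k‖ ^ 2 := h1.trans (h2.trans h3)
  have h5 : (8 * (L : ℝ) ^ 2 + (Q : ℝ) ^ 4) ≤ 9 * (L : ℝ) * (L : ℝ) := by
    have h6 : (Q : ℝ) ^ 2 ≤ L := by rw [hLr]; have : (0 : ℝ) ≤ N := Nat.cast_nonneg N; linarith
    have h7 : (Q : ℝ) ^ 4 ≤ (L : ℝ) ^ 2 := by
      have e : (Q : ℝ) ^ 4 = ((Q : ℝ) ^ 2) ^ 2 := by ring
      rw [e]
      exact pow_le_pow_left₀ (by positivity) h6 2
    nlinarith
  have h8 : 0 ≤ ∑ k ∈ J, ‖b k‖ ^ 2 := Finset.sum_nonneg fun k _ => by positivity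
  rw [← hLr]
  have h9 : (L : ℝ) * ∑ x ∈ range N, ‖∑ k ∈ J, b k * lsi_e (θ k * (((x : ℤ)) : ℝ))‖ ^ 2
      ≤ (L : ℝ) * (9 * (L : ℝ) * ∑ k ∈ J, ‖b k‖ ^ 2) := by
    refine h4.trans ?_
    have := mul_le_mul_of_nonneg_right h5 h8
    linarith
  exact le_of_mul_le_mul_left h9 hL0

/-- the large sieve inequality for separated points -/
theorem lsi_main {ι : Type} (J : Finset ι) (θ : ι → ℝ) (N Q : ℕ) (hQ : 1 ≤ Q)
    (hsep : ∀ k ∈ J, ∀ l ∈ J, k ≠ l → ∀ n : ℤ, 1 / (Q : ℝ) ^ 2 ≤ |θ k - θ l - n|)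
    (S : Finset ℤ) (hS : S ⊆ Finset.Ico (0 : ℤ) (N : ℤ)) :
    ∑ k ∈ J, ‖∑ x ∈ S, lsi_e (θ k * (x : ℝ))‖ ^ 2
      ≤ 9 * ((N : ℝ) + (Q : ℝ) ^ 2) * S.card := by
  obtain ⟨T, hT⟩ : ∃ T : ℝ, T = ∑ k ∈ J, ‖∑ x ∈ S, lsi_e (θ k * (x : ℝ))‖ ^ 2 := ⟨_, rfl⟩
  rw [← hT]
  let s : ι → ℂ := fun k => ∑ x ∈ S, lsi_e (θ k * (x : ℝ))
  let f : ℤ → ℂ := fun x => ∑ k ∈ J, conj (s k) * lsi_e (θ k * (x : ℝ))
  have hT0 : 0 ≤ T := by rw [hT]; exact Finset.sum_nonneg fun k _ => by positivity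
  have h1 : (T : ℂ) = ∑ x ∈ S, f x := by
    rw [hT]
    push_cast
    rw [Finset.sum_comm]
    refine Finset.sum_congr rfl fun k _ => ?_
    rw [← Finset.mul_sum, ← Complex.conj_mul']
  have h2 : T ≤ ∑ x ∈ S, ‖f x‖ := by
    have h3 : T = ‖(T : ℂ)‖ := by
      rw [Complex.norm_real, Real.norm_eq_abs, abs_of_nonneg hT0]
    rw [h3, h1]
    exact norm_sum_le _ _
  have h4 : (∑ x ∈ S, ‖f x‖) ^ 2 ≤ S.card * ∑ x ∈ S, ‖f x‖ ^ 2 := sq_sum_le_card_mul_sum_sq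
  have h5 : ∑ x ∈ S, ‖f x‖ ^ 2 ≤ ∑ x ∈ range N, ‖f ((x : ℤ))‖ ^ 2 := by
    have e : ∑ x ∈ range N, ‖f ((x : ℤ))‖ ^ 2
        = ∑ x ∈ (range N).image (fun x : ℕ => (x : ℤ)), ‖f x‖ ^ 2 := by
      rw [Finset.sum_image]
      intro a _ b _ hab
      have hab' : (a : ℤ) = (b : ℤ) := hab
      exact_mod_cast hab'
    rw [e]
    apply Finset.sum_le_sum_of_subset_of_nonneg
    · intro x hx
      have h6 := hS hx
      rw [Finset.mem_Ico] at h6
      rw [Finset.mem_image]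
      refine ⟨x.toNat, ?_, ?_⟩
      · rw [Finset.mem_range]; omega
      · omega
    · intro x _ _
      positivity
  have h7 := lsi_dual J (fun k => conj (s k)) θ N Q hQ hsep
  have h8 : ∑ k ∈ J, ‖conj (s k)‖ ^ 2 = T := by
    rw [hT]
    refine Finset.sum_congr rfl fun k _ => ?_
    rw [RCLike.norm_conj]
  rw [h8] at h7
  have h9 : T ^ 2 ≤ S.card * (9 * ((N : ℝ) + (Q : ℝ) ^ 2) * T) := by
    have a1 : T ^ 2 ≤ (∑ x ∈ S, ‖f x‖) ^ 2 := pow_le_pow_left₀ hT0 h2 2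
    have a2 : (S.card : ℝ) * ∑ x ∈ S, ‖f x‖ ^ 2
        ≤ S.card * (9 * ((N : ℝ) + (Q : ℝ) ^ 2) * T) :=
      mul_le_mul_of_nonneg_left (h5.trans h7) (Nat.cast_nonneg _)
    exact a1.trans (h4.trans a2)
  rcases hT0.eq_or_lt with h0 | h0
  · rw [← h0]
    positivity
  · have h10 : T * T ≤ (9 * ((N : ℝ) + (Q : ℝ) ^ 2) * S.card) * T := by
      have e : T ^ 2 = T * T := sq T
      rw [e] at h9
      linarith
    exact le_of_mul_le_mul_right h10 h0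

theorem st_LSI : ST_LSI := by
  refine ⟨9, by norm_num, ?_⟩
  intro N Q S _ hQ hS
  rw [← Finset.sum_sigma (f := fun k : (_ : ℕ) × ℕ => ‖∑ x ∈ S,
    Complex.exp (2 * Real.pi * Complex.I * ((k.2 : ℂ) * (x : ℂ) / (k.1 : ℂ)))‖ ^ 2)]
  have h1 := lsi_main ((Finset.Icc 1 Q).sigma
    (fun q => (Finset.range q).filter (fun a => a.Coprime q)))
    (fun k => (k.2 : ℝ) / (k.1 : ℝ)) N Q hQ ?_ S hS
  · refine le_trans (le_of_eq ?_) h1
    refine Finset.sum_congr rfl fun k _ => ?_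
    congr 2
    refine Finset.sum_congr rfl fun x _ => ?_
    unfold lsi_e
    congr 1
    push_cast
    ring
  · intro k hk l hl hkl n
    rw [Finset.mem_sigma, Finset.mem_Icc, Finset.mem_filter, Finset.mem_range] at hk hl
    obtain ⟨⟨k1, k2⟩, k3, k4⟩ := hk
    obtain ⟨⟨l1, l2⟩, l3, l4⟩ := hl
    obtain ⟨q, a⟩ := k
    obtain ⟨r, c⟩ := l
    simp only at k1 k2 k3 k4 l1 l2 l3 l4 ⊢
    have hq0 : (0 : ℝ) < q := by exact_mod_cast k1
    have hr0 : (0 : ℝ) < r := by exact_mod_cast l1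
    have hQ0 : (0 : ℝ) < Q := by exact_mod_cast hQ
    have e : (a : ℝ) / q - (c : ℝ) / r - n
        = (((a : ℤ) * r - c * q - n * (q * r) : ℤ) : ℝ) / (q * r) := by
      push_cast
      field_simp
    have hz : (a : ℤ) * r - c * q - n * (q * r) ≠ 0 := by
      intro h0
      apply hkl
      -- `r` divides `q` and conversely
      have d1 : (q : ℤ) ∣ (a : ℤ) * r := ⟨c + n * r, by linarith⟩
      have d2 : (r : ℤ) ∣ (c : ℤ) * q := ⟨a - n * q, by linarith⟩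
      have d1' : q ∣ a * r := by exact_mod_cast d1
      have d2' : r ∣ c * q := by exact_mod_cast d2
      have d3 : q ∣ r := (Nat.Coprime.dvd_of_dvd_mul_left k4.symm d1')
      have d4 : r ∣ q := (Nat.Coprime.dvd_of_dvd_mul_left l4.symm d2')
      have d5 : q = r := Nat.dvd_antisymm d3 d4
      subst d5
      have h1 : ((a : ℤ) - c - n * q) * q = 0 := by linarith
      have hq' : (q : ℤ) ≠ 0 := by exact_mod_cast (by omega : q ≠ 0)
      have h2 : (a : ℤ) - c - n * q = 0 := by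
        rcases mul_eq_zero.mp h1 with h3 | h3
        · exact h3
        · exact absurd h3 hq'
      have h3 : (a : ℤ) = c := by
        have b1 : (a : ℤ) < q := by exact_mod_cast k3
        have b2 : (c : ℤ) < q := by exact_mod_cast l3
        have b3 : (0 : ℤ) ≤ a := by positivity
        have b4 : (0 : ℤ) ≤ c := by positivity
        have b5 : n = 0 := by
          by_contra hn
          rcases lt_or_gt_of_ne hn with h4 | h4
          · have : n * q ≤ -1 * q := by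
              apply mul_le_mul_of_nonneg_right (by omega) (by omega)
            linarith
          · have : 1 * (q : ℤ) ≤ n * q := by
              apply mul_le_mul_of_nonneg_right (by omega) (by omega)
            linarith
        rw [b5] at h2
        linarith
      have h4 : a = c := by exact_mod_cast h3
      rw [h4]
    rw [e, abs_div, abs_of_pos (mul_pos hq0 hr0), ← Int.cast_abs]
    have hz1 : (1 : ℝ) ≤ ((|(a : ℤ) * r - c * q - n * (q * r)| : ℤ) : ℝ) := by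
      exact_mod_cast Int.one_le_abs hz
    have hqr : (q : ℝ) * r ≤ (Q : ℝ) ^ 2 := by
      have b1 : (q : ℝ) ≤ Q := by exact_mod_cast k2
      have b2 : (r : ℝ) ≤ Q := by exact_mod_cast l2
      have b3 : (q : ℝ) * r ≤ Q * Q := mul_le_mul b1 b2 hr0.le hQ0.le
      rw [sq]
      exact b3
    calc 1 / (Q : ℝ) ^ 2 ≤ 1 / ((q : ℝ) * r) :=
          one_div_le_one_div_of_le (mul_pos hq0 hr0) hqr
      _ ≤ _ := div_le_div_of_nonneg_right hz1 (mul_pos hq0 hr0).le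

end Pool.Agent.Helper37.DG
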